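import Pool.Agent.Helper30.KC.GoalsI
import Pool.Agent.Helper70.KC.EV
import Pool.Agent.Helper59.KC.CY
import Pool.Agent.Helper34.KC.DD

/-!
# Project KI (MP_bf413e_co), packet BB: even sets in a ball
-/

set_option autoImplicit false

namespace Pool.Agent.Helper60.KI

open scoped Classical
open Finset
open Pool.Agent.Helper94.KC Pool.Agent.Helper30.KC
open Pool.Agent.Helper70.KC (odd_symm card_symm bd_symm toFinset_inj mem_ed_of)

/-- indicator function mod 2 -/
noncomputable def ind {α : Type} (S : Finset α) (f : α) : ZMod 2 := if f ∈ S then 1 else 0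

theorem ind_symm {α : Type} [DecidableEq α] (A B : Finset α) (f : α) :
    ind (symmDiff A B) f = ind A f + ind B f := by
  unfold ind
  by_cases h1 : f ∈ A <;> by_cases h2 : f ∈ B <;> simp [mem_symmDiff, h1, h2]
  rfl

theorem ind_inj {α : Type} {A B : Finset α} (h : ∀ f, ind A f = ind B f) : A = B := by
  ext f
  have h1 := h f
  unfold ind at h1
  by_cases h2 : f ∈ A <;> by_cases h3 : f ∈ B <;> simp_all

theorem foldr_append {α : Type} [DecidableEq α] (L M : List (Finset α)) :
    (L ++ M).foldr symmDiff ∅ = symmDiff (L.foldr symmDiff ∅) (M.foldr symmDiff ∅) := by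
  induction L with
  | nil =>
    ext x
    simp [mem_symmDiff]
  | cons a L ih => rw [List.cons_append, List.foldr_cons, ih, List.foldr_cons, symmDiff_assoc]

section walks

variable {V : Type} {T : Finset (Finset V)}

/-- the edges of a path -/
theorem path [Fintype V] {x y : V} (w : (sk T).Walk x y) (hw : w.IsPath) :
    (∀ v, Odd ((wed w).filter (fun e => v ∈ e)).card ↔ (x ≠ y ∧ (v = x ∨ v = y))) ∧
      (wed w).card = w.length ∧ wed w ⊆ ed T := by
  have hnd : w.edges.Nodup := hw.isTrail.edges_nodup
  have hnd2 : (w.edges.map (fun e => e.toFinset)).Nodup := hnd.map toFinset_inj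
  refine ⟨?_, ?_, ?_⟩
  · intro v
    have h1 : ((wed w).filter (fun e => v ∈ e)).card =
        w.edges.countP (fun e => v ∈ e) := by
      have h2 : (wed w).filter (fun e => v ∈ e) =
          ((w.edges.map (fun e => e.toFinset)).filter (fun e => decide (v ∈ e))).toFinset := by
        ext e
        simp only [wed, mem_filter, List.mem_toFinset, List.mem_filter, decide_eq_true_eq]
      rw [h2, List.toFinset_card_of_nodup (hnd2.filter _),
        ← List.countP_eq_length_filter, List.countP_map]
      congr 1
      funext e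
      simp [Sym2.mem_toFinset]
    rw [h1, ← Nat.not_even_iff_odd, hw.isTrail.even_countP_edges_iff v]
    tauto
  · unfold wed
    rw [List.toFinset_card_of_nodup hnd2, List.length_map, SimpleGraph.Walk.length_edges]
  · intro e he
    unfold wed at he
    rw [List.mem_toFinset, List.mem_map] at he
    obtain ⟨f, hf, rfl⟩ := he
    have hadj := w.edges_subset_edgeSet hf
    induction f using Sym2.ind with
    | _ a b =>
      rw [SimpleGraph.mem_edgeSet] at hadj
      obtain ⟨hab, t, ht, ha, hb⟩ := hadj
      rw [Sym2.toFinset_mk_eq]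
      exact mem_ed_of hab ht ha hb

theorem mem_wed {x y : V} (w : (sk T).Walk x y) {f : Finset V} (hf : f ∈ wed w) {v : V}
    (hv : v ∈ f) : v ∈ w.support := by
  unfold wed at hf
  rw [List.mem_toFinset, List.mem_map] at hf
  obtain ⟨g, hg, rfl⟩ := hf
  rw [Sym2.mem_toFinset] at hv
  rw [SimpleGraph.Walk.mem_support_iff_exists_mem_edges]
  exact Or.inr ⟨g, hg, hv⟩

theorem support_wed {x : V} (w : (sk T).Walk x x) (hw : w.IsCycle) {v : V}
    (hv : v ∈ w.support) : ∃ f ∈ wed w, v ∈ f := by
  rw [SimpleGraph.Walk.mem_support_iff_exists_mem_edges_of_not_nil hw.not_nil] at hv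
  obtain ⟨g, hg, hv⟩ := hv
  refine ⟨g.toFinset, ?_, by rwa [Sym2.mem_toFinset]⟩
  unfold wed
  rw [List.mem_toFinset]
  exact List.mem_map_of_mem hg

end walks

theorem pBB : StmtBB := by
  intro V _ T hT h k hEW z hz hz2 hzk
  have hDD := Pool.Agent.Helper34.KC.dd Pool.Agent.Helper70.KC.ev Pool.Agent.Helper59.KC.cy
  -- shortest paths
  have hp : ∀ v : V, ∃ w : (sk T).Walk h v, w.IsPath ∧ w.length = (sk T).dist h v :=
    fun v => hT.conn.exists_path_of_dist h v
  choose p hpath hlen using hp
  have yk : ∀ v, (sk T).dist h v ≤ k → (wed (p v)).card ≤ k ∧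
      ∀ f ∈ wed (p v), ∀ u ∈ f, (sk T).dist h u ≤ k := by
    intro v hv
    refine ⟨?_, ?_⟩
    · rw [(path (p v) (hpath v)).2.1, hlen]; exact hv
    · intro f hf u hu
      have h1 := mem_wed (p v) hf hu
      have h2 := SimpleGraph.dist_le ((p v).takeUntil u h1)
      have h3 := (p v).length_takeUntil_le_length h1
      rw [hlen] at h3
      omega
  -- one edge
  have one : ∀ e ∈ z, ∃ L : List (Finset (Finset V)),
      (∀ f, ind (bd T (L.foldr symmDiff ∅)) f =
        (∑ v ∈ e, ind (wed (p v)) f) + (if f = e then 1 else 0)) ∧ ∀ D ∈ L, Near T h k D := by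
    intro e he
    have hed := hz he
    unfold ed at hed
    rw [mem_filter] at hed
    obtain ⟨-, hc, -⟩ := hed
    obtain ⟨a, b, hab, rfl⟩ := card_eq_two.1 hc
    have ha := hzk _ he a (by simp)
    have hb := hzk _ he b (by simp)
    obtain ⟨pa1, pa2, pa3⟩ := path (p a) (hpath a)
    obtain ⟨pb1, pb2, pb3⟩ := path (p b) (hpath b)
    obtain ⟨c, hcdef⟩ : ∃ c, c = symmDiff (symmDiff (wed (p a)) (wed (p b))) {({a, b} : Finset V)} :=
      ⟨_, rfl⟩
    have hmem : ∀ f ∈ c, f ∈ wed (p a) ∨ f ∈ wed (p b) ∨ f = {a, b} := by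
      intro f hf
      rw [hcdef, mem_symmDiff, mem_symmDiff, mem_singleton] at hf
      tauto
    have c1 : c ⊆ ed T := by
      intro f hf
      rcases hmem f hf with h1 | h1 | h1
      · exact pa3 h1
      · exact pb3 h1
      · rw [h1]; exact hz he
    have c2 : Even2 c := by
      intro v
      rw [← Nat.not_odd_iff_even, hcdef, odd_symm, odd_symm, pa1 v, pb1 v]
      have h1 : Odd (({({a, b} : Finset V)} : Finset (Finset V)).filter (fun e => v ∈ e)).card ↔
          (v = a ∨ v = b) := by
        rw [filter_singleton]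
        by_cases h2 : v ∈ ({a, b} : Finset V)
        · rw [if_pos h2]
          simpa using h2
        · rw [if_neg h2]
          simpa using h2
      rw [h1]
      by_cases q1 : v = h
      · subst q1
        by_cases q2 : v = a
        · subst q2
          have q3 : v ≠ b := hab
          simp [q3]
        · by_cases q3 : v = b
          · subst q3; simp [q2]
          · simp [q2, q3]
      · by_cases q2 : v = a
        · subst q2
          have q3 : v ≠ b := hab
          simp [q1, q3, Ne.symm q1]
        · by_cases q3 : v = b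
          · subst q3; simp [q1, q2, Ne.symm q1]
          · simp [q1, q2, q3]
    have c3 : c.card ≤ 2 * k + 1 := by
      have h1 := card_symm (wed (p a)) (wed (p b))
      have h2 := card_symm (symmDiff (wed (p a)) (wed (p b))) {({a, b} : Finset V)}
      rw [← hcdef, card_singleton] at h2
      have h3 := (yk a ha).1
      have h4 := (yk b hb).1
      omega
    obtain ⟨L, hL1, hL2⟩ := hDD V T hT (2 * k + 2) hEW c c1 c2 (by omega)
    refine ⟨L, ?_, ?_⟩
    · intro f
      rw [hL1, hcdef, ind_symm, ind_symm, sum_pair hab]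
      congr 1
      unfold ind
      simp
    · intro D hD
      obtain ⟨x, w, hw1, hw2, hw3⟩ := hL2 D hD
      refine ⟨x, w, hw1, ?_, ?_, hw3⟩
      · have h1 := (Pool.Agent.Helper70.KC.cyc w hw1).2.1
        rw [← h1]
        exact (card_le_card hw2).trans c3
      · intro v hv
        obtain ⟨f, hf, hvf⟩ := support_wed w hw1 hv
        rcases hmem f (hw2 hf) with h1 | h1 | h1
        · exact (yk a ha).2 f h1 v hvf
        · exact (yk b hb).2 f h1 v hvf
        · rw [h1] at hvf
          exact hzk _ he v hvf
  -- all edges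
  have all : ∀ S ⊆ z, ∃ L : List (Finset (Finset V)),
      (∀ f, ind (bd T (L.foldr symmDiff ∅)) f =
        ∑ e ∈ S, ((∑ v ∈ e, ind (wed (p v)) f) + (if f = e then 1 else 0))) ∧
        ∀ D ∈ L, Near T h k D := by
    intro S
    induction S using Finset.induction_on with
    | empty =>
      intro _
      refine ⟨[], ?_, by simp⟩
      intro f
      simp [bd, ind]
    | insert e S he ih =>
      intro hS
      obtain ⟨L, hL1, hL2⟩ := ih (fun x hx => hS (mem_insert_of_mem hx))
      obtain ⟨M, hM1, hM2⟩ := one e (hS (mem_insert_self e S))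
      refine ⟨M ++ L, ?_, ?_⟩
      · intro f
        rw [foldr_append, bd_symm, ind_symm, hL1, hM1, sum_insert he]
      · intro D hD
        rcases List.mem_append.1 hD with h1 | h1
        · exact hM2 D h1
        · exact hL2 D h1
  obtain ⟨L, hL1, hL2⟩ := all z (Subset.refl z)
  refine ⟨L, ?_, hL2⟩
  apply ind_inj
  intro f
  rw [hL1, sum_add_distrib]
  have h1 : ∑ e ∈ z, ∑ v ∈ e, ind (wed (p v)) f = 0 := by
    have h2 : ∀ e ∈ z, ∑ v ∈ e, ind (wed (p v)) f =
        ∑ v : V, if v ∈ e then ind (wed (p v)) f else 0 := by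
      intro e _
      rw [← sum_filter]
      congr 1
      ext v
      simp
    rw [sum_congr rfl h2, sum_comm]
    refine sum_eq_zero fun v _ => ?_
    rw [← sum_filter, sum_const, nsmul_eq_mul, (ZMod.natCast_eq_zero_iff_even).2 (hz2 v), zero_mul]
  rw [h1, zero_add, sum_ite_eq]
  unfold ind
  congr

end Pool.Agent.Helper60.KI
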